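import Pool.Agent.R199.Erase5

/-!
# MP_7df46e_an, Q2: almost all points have a dense orbit under the erasing-substitution map

The map `R : [0,1] → [0,1]` of the problem exists, and the set `E` of the points of `[0,1]` with
dense orbit under `R` has full Lebesgue measure.
-/

set_option autoImplicit false

open Set MeasureTheory

namespace Pool.Agent.Results.MP_7df46e_an.AlmostAllOrbitsDense

open Pool.Agent.R199.Erase

theorem result : (∃ R : unitInterval → unitInterval, IsR R) ∧
    ∀ R : unitInterval → unitInterval, IsR R →
      volume {x : unitInterval | Dense (range fun n : ℕ => R^[n] x)} = 1 ∧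
      volume {x : unitInterval | ¬ Dense (range fun n : ℕ => R^[n] x)} = 0 := by
  refine ⟨exists_isR, fun R hR => ⟨?_, ?_⟩⟩
  · rw [← measure_univ (μ := (volume : Measure unitInterval))]
    apply measure_congr
    filter_upwards [ae_dense hR] with x hx
    exact propext ⟨fun _ => trivial, fun _ => hx⟩
  · exact ae_dense hR

end Pool.Agent.Results.MP_7df46e_an.AlmostAllOrbitsDense
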