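import Pool.Agent.R199.Erase2

/-!
# MP_7df46e_an, Q1: the points with dense orbit under the erasing-substitution map are comeagre

The map `R : [0,1] → [0,1]` of the problem exists, and the set of the points of `[0,1]` with dense
orbit under `R` is comeagre, hence of second category.
-/

set_option autoImplicit false

open Set

namespace Pool.Agent.Results.MP_7df46e_an.DenseOrbitsComeagre

open Pool.Agent.R199.Erase

theorem result : (∃ R : unitInterval → unitInterval, IsR R) ∧
    ∀ R : unitInterval → unitInterval, IsR R →
      {x : unitInterval | Dense (range fun n : ℕ => R^[n] x)} ∈ residual unitInterval ∧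
      ¬ IsMeagre {x : unitInterval | Dense (range fun n : ℕ => R^[n] x)} :=
  ⟨exists_isR, fun _ hR => ⟨residual_dense hR, not_isMeagre_of_mem_residual (residual_dense hR)⟩⟩

end Pool.Agent.Results.MP_7df46e_an.DenseOrbitsComeagre
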